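import Mathlib
import Pool.Agent.E8helper20.CTM.AsmX
import Pool.Agent.E8helper89.CTM.Cub3
import Pool.Agent.E8helper20.CTM.Dat0

/-!
# The ranks of all the cubic twists over `ℚ(√-3)`

`K` is the field of third roots of unity, `ω` is a primitive third root of unity, `√-3 = 1 + 2 ω`, and
`E_a : y² + a y = x³`, `a ∈ 𝓞 K`. Up to isomorphism these are all the elliptic curves over `K` with
`j = 0` and a point of order three over `K`; `E_a` and `E_{-a}` are isomorphic, and `a` can be taken
cube-free. Up to the sign every cube-free `a` is `c ω ^ b D` with `c = 1, √-3, 3`, `b = 0, 1, 2` and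
`D = 1` modulo `3` cube-free. We leave out only the `a` which divide a power of `3` (`D = 1`, nine curves),
and order the curves by the norm of `a` (the norm of the discriminant `-27 a⁴`).

* For every nonempty set `T` of pairs `(c, b)`, in particular for all of them, the proportion of the
  `a` for which the Selmer group `SelRoot a` of the endomorphism `√-3` has order `3 ^ (r + 1)` tends to
  `prob r = ∏_{i ≥ 0} (1 - 3^{-(2 i + 1)}) / ((3 - 1) (9 - 1) ⋯ (3 ^ r - 1))`; these limits sum to one.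
* The rank of `E_a(K)` over `ℤ` is even, and at most `2 r` if `SelRoot a` has order `3 ^ (r + 1)`. So
  for at least `63.9%` of the `a` it is zero, for at least `95.85%` it is `0` or `2`, for at least
  `99.8%` it is at most `4`, and the average of the minimum of the rank and any constant is at most
  `0.818`.

Built on the projects XK, XL, CT, CTK, KF, KL (the seats named in the headers of the imported files)
and on the pieces of the projects CT3, CTK3, CTL3 and CTM by helper2, helper6, helper7, helper23,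
helper41, helper44, helper50, helper51, helper54, helper55, helper56, helper57, helper63, helper69,
helper73, helper81, helper85, helper86, helper87, helper89, helper96, helper98; statements
and assembly: helper20. The section on averages is adapted from a file of helper419.
-/

set_option autoImplicit false

namespace Pool.Agent.Results.MP_7cad78_nt.AllCubicTwistRanksH20

open NumberField WeierstrassCurve Filter
open Pool.Agent.TH841.SH.D (Coch)
open Pool.Agent.TH841.NF.D (IsShaCoc)
open scoped Classical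

variable {K : Type} [Field K] [NumberField K]

/-- The curve `E_a : y² + a y = x³`. -/
def curve {K : Type} [Field K] (a : K) : WeierstrassCurve K := ⟨0, 0, a, 0, 0⟩

/-- The rank of `E_a(K)` over `ℤ`. -/
noncomputable def rank (a : K) : ℕ := Module.finrank ℤ (curve a).toAffine.Point

/-- The Selmer group of the endomorphism `√-3` of `E_a`: the continuous cocycles of the absolute Galois
group of `K` with values in its kernel `{0, (0, 0), (0, -a)}` that are coboundaries in `E_a` at all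
the places of `K` (the Galois group acts trivially on the kernel, so that there are no
coboundaries). -/
def SelRoot (a : K) : Set (Coch (curve a)) :=
  {f | IsShaCoc (curve a) f ∧ ∀ σ, f σ = 0 ∨ ∃ y h, f σ = Affine.Point.some 0 y h}

/-- `a = c ω ^ b D` for the pair `t = (c, b)` (`c = 1, √-3, 3` is coded by `0, 1, 2`), where `D ≠ 1` is
cube-free and `1` modulo `3`. -/
def Twist (ω : 𝓞 K) (t : Fin 3 × Fin 3) (a : 𝓞 K) : Prop :=
  ∃ D : 𝓞 K, a = (if t.1 = 0 then 1 else if t.1 = 1 then 1 + 2 * ω else 3) * ω ^ (t.2 : ℕ) * D ∧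
    (3 : 𝓞 K) ∣ D - 1 ∧ (∀ x : 𝓞 K, x ^ 3 ∣ D → IsUnit x) ∧ D ≠ 1

/-- `a` is of one of the types `t ∈ T`. -/
def InClass (ω : 𝓞 K) (T : Finset (Fin 3 × Fin 3)) (a : 𝓞 K) : Prop := ∃ t ∈ T, Twist ω t a

/-- The number of the `a` with the property `A` of norm at most `X`. -/
noncomputable def count (A : 𝓞 K → Prop) (X : ℕ) : ℕ := {a : 𝓞 K | Algebra.norm ℤ a ≤ X ∧ A a}.ncard

/-- The proportion of the `a` with the property `P` among the `a` of the types `t ∈ T` of norm at
most `X`. -/
noncomputable def proportion (ω : 𝓞 K) (T : Finset (Fin 3 × Fin 3)) (P : 𝓞 K → Prop) (X : ℕ) : ℝ :=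
  (count (fun a => InClass ω T a ∧ P a) X : ℝ) / (count (InClass ω T) X : ℝ)

/-- `∏_{i ≥ 0} (1 - 3^{-(2 i + 1)}) / ((3 - 1) (9 - 1) ⋯ (3 ^ r - 1))`. -/
noncomputable def prob (r : ℕ) : ℝ :=
  (∏' i : ℕ, (1 - (1 / 3 : ℝ) ^ (2 * i + 1))) / ∏ i ∈ Finset.range r, ((3 : ℝ) ^ (i + 1) - 1)

theorem result (K : Type) [Field K] [NumberField K] [IsCyclotomicExtension {3} ℚ K] (ω : 𝓞 K)
    (hω : ω ^ 2 + ω + 1 = 0) :
    (∀ a : 𝓞 K, (∀ x : 𝓞 K, x ^ 3 ∣ a → IsUnit x) → (∀ n : ℕ, ¬ a ∣ 3 ^ n) →
      InClass ω Finset.univ a ∨ InClass ω Finset.univ (-a)) ∧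
    (∀ a : 𝓞 K, InClass ω Finset.univ a → Even (rank (a : K)) ∧
      ∃ r : ℕ, (SelRoot (a : K)).ncard = 3 ^ (r + 1) ∧ rank (a : K) ≤ 2 * r) ∧
    (∀ T : Finset (Fin 3 × Fin 3), T.Nonempty →
      (∃ c : ℝ, 0 < c ∧ ∃ X₀ : ℕ, ∀ X : ℕ, X₀ ≤ X → c * X ≤ (count (InClass ω T) X : ℝ)) ∧
      (∀ r : ℕ, Tendsto (proportion ω T (fun a : 𝓞 K => (SelRoot (a : K)).ncard = 3 ^ (r + 1)))
        atTop (nhds (prob r))) ∧
      (∀ᶠ X : ℕ in atTop, 0.639 ≤ proportion ω T (fun a : 𝓞 K => rank (a : K) = 0) X ∧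
        0.9585 ≤ proportion ω T (fun a : 𝓞 K => rank (a : K) = 0 ∨ rank (a : K) = 2) X ∧
        0.998 ≤ proportion ω T (fun a : 𝓞 K => rank (a : K) ≤ 4) X) ∧
      ∀ B : ℕ, ∀ᶠ X : ℕ in atTop,
        ∑ᶠ a ∈ {a : 𝓞 K | Algebra.norm ℤ a ≤ X ∧ InClass ω T a}, ((min (rank (a : K)) B : ℕ) : ℝ) ≤
          0.818 * (count (InClass ω T) X : ℝ)) ∧
    ((∀ r, 0 < prob r) ∧ 0.639 < prob 0 ∧ prob 0 < 0.6391 ∧ HasSum prob 1) := by
  have hL := fun (T : Finset (Fin 3 × Fin 3)) (hT : T.Nonempty) =>
    Pool.Agent.E8helper20.CTM.X.final Pool.Agent.E8helper89.CTM.t_CUBM3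
      Pool.Agent.E8helper20.CTM.t_DAT0 ω hω T hT
  refine ⟨fun a h1 h2 => Pool.Agent.E8helper20.CTM.X.complete ω hω a h1 h2, fun a ha => ?_,
    fun T hT => ⟨(hL T hT).low, fun r => (hL T hT).law r,
    Pool.Agent.E8helper20.CTM.ranks_num (hL T hT), fun B =>
    Pool.Agent.E8helper20.CTM.trunc (hL T hT) B⟩, Pool.Agent.E8helper20.CTM.prob_facts⟩
  obtain ⟨h1, r, s, h2, -, -, -, h3⟩ :=
    Pool.Agent.E8helper20.CTM.one_all (hL Finset.univ Finset.univ_nonempty) ha
  exact ⟨h1, r, h2, h3⟩

end Pool.Agent.Results.MP_7cad78_nt.AllCubicTwistRanksH20
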