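import Pool.Agent.W612.RS.Mq1
import Pool.Agent.TH942.FG
import Pool.Agent.E8helper75.QI.Crit
import Pool.Agent.E8helper51.QK.Shak
import Pool.Agent.E8helper36.QI.T
import Pool.Agent.Y948.CQ.C2
import Pool.Agent.E8helper79.QI.ExK
import Pool.Agent.E8helper51.F3.Shag
import Pool.Agent.E8helper75.F3.Cnt
import Pool.Agent.E8helper82.F3.Thr
import Pool.Agent.E8helper10.F3.SUP3

/-!
# Rank zero over four number fields for families of curves over `ℚ(i)`

`K = ℚ(i)`, `D` is a primary squarefree Gaussian integer (the product of a finite set `S` of primary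
primes) and `E_u : y² = x³ + u D x` with `u` one of seven coefficients: `2`, `i`, `-i` and the four
associates of `(1 + i)³`; as every odd squarefree Gaussian integer `C` is `w D` with a unit `w`, the last
four give the curves `y² = x³ + (1 + i)³ C x` with any odd squarefree `C`. Up to isomorphism `K` has three
quadratic extensions unramified outside `1 + i`, which are `F = K(√c)` with `c = i`, `1 + i`, `1 - i` (the
first is `ℚ(ζ₈)`, the last two are conjugate and are not Galois over `ℚ`). We prove for the fields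
* `F = ℚ(i)` and all the seven `u`;
* `F = K(√i) = ℚ(ζ₈)` and all the `u ≠ 2`;
* `F = K(√(1 + i))` and `u = 2`, `-i`;
* `F = K(√(1 - i))` and `u = 2`, `i`,

that `E_u(F)` is finite if the matrix `mat u S` over `𝔽₂` of the quadratic residue symbols is not singular;
and this is so for a proportion of at least `∏ (1 - 2 ^ (-(2 i + 1))) = 0.4194...` of the `D` ordered by
norm, at the same time for all these `F` and for `u = 2`, `i`, `-i`, and also for `u` and `-u`, `u` any
associate of `(1 + i)³`.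

Proof: the rank of `E_u` over `F = K(√c)` is at most the sum of the ranks over `K` of `E_u` and of its
quadratic twist by `c`, which is `y² = x³ + c² u D x`; as `i² = -1`, `(1 ± i)² = ± 2 i` and
`(1 + i) ^ 4 = -4` the twist is again one of the seven curves, with the same matrix. The curves have finite
groups over `K` if the matrix is not singular (the descent of the projects QK, QI and F3, helpers 36, 51
and 75), and the proportion of these `D` is the product (helpers 75 and 79). (Seat: helper 18.)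
-/

set_option autoImplicit false

namespace Pool.Agent.Results.MP_7cad78_nt.QuarticTwistFieldsH18

open NumberField IsDedekindDomain WeierstrassCurve

/-- `g` is primary: `g ≡ 1` modulo `2 + 2i`. -/
def Primary (g : GaussianInt) : Prop := (⟨2, 2⟩ : GaussianInt) ∣ g - 1

/-- The curve `y² = x³ + A x` over a field `F`. -/
def curve {F : Type} [Field F] (A : F) : WeierstrassCurve F := ⟨0, 0, 0, A, 0⟩

/-- The seven coefficients `u`: `2`, `i`, `-i` and the associates of `(1 + i)³ = -2 + 2 i`. -/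
def Coef (u : GaussianInt) : Prop :=
  u = 2 ∨ u = ⟨0, 1⟩ ∨ u = ⟨0, -1⟩ ∨ ∃ w : GaussianInt, IsUnit w ∧ u = ⟨-2, 2⟩ * w

/-- The pairs `(c, u)`, where `c` gives the field `F = K(√c)` and `u` the curve `y² = x³ + u D x`: `c = 1`
and any `u`; `c = i` and `u ≠ 2`; `c = 1 + i` and `u = 2`, `-i`; `c = 1 - i` and `u = 2`, `i`. -/
def Pair (c u : GaussianInt) : Prop := Coef u ∧
  (c = 1 ∨ (c = ⟨0, 1⟩ ∧ u ≠ 2) ∨ (c = ⟨1, 1⟩ ∧ (u = 2 ∨ u = ⟨0, -1⟩)) ∨
    (c = ⟨1, -1⟩ ∧ (u = 2 ∨ u = ⟨0, 1⟩)))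

/-- The group of the points of `y² = x³ + u D x` over `F = K(√c)` is finite for all the `c` such that
`(c, u)` is one of the pairs, where `K = ℚ(i)` is any number field with an isomorphism `e` of the ring of
Gaussian integers with its ring of integers, and `F = K(s)` with `s² = c`. -/
def AllFinite (u D : GaussianInt) : Prop :=
  ∀ (K F : Type) [Field K] [NumberField K] [Field F] [NumberField F] [Algebra K F]
    (e : GaussianInt ≃+* 𝓞 K) (c : GaussianInt) (s : F), Pair c u →
    s ^ 2 = algebraMap K F (e c) → IntermediateField.adjoin K {s} = ⊤ →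
    Finite (curve (algebraMap K F (e (u * D)))).toAffine.Point

open Classical in
/-- `0` if `a` is a square modulo `p`, and `1` if it is not. -/
noncomputable def nonsq (a p : GaussianInt) : ZMod 2 := if ∃ b : GaussianInt, p ∣ b ^ 2 - a then 0 else 1

/-- The matrix over the field with two elements, with rows and columns indexed by the set `S` of primary
primes of `ℤ[i]`: the entry at `(p, q)` is `nonsq p q` for `p ≠ q`, and the entry at `(p, p)` is the sum
of `nonsq u p` and of the `nonsq p q` for the `q ≠ p` in `S`. -/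
noncomputable def mat (u : GaussianInt) (S : Finset GaussianInt) : Matrix S S (ZMod 2) :=
  Matrix.of fun p q =>
    if q = p then nonsq u p + ∑ r ∈ S.erase (p : GaussianInt), nonsq p r else nonsq p q

/-- The primary squarefree Gaussian integers of norm at most `X`. -/
def Family (X : ℕ) : Set GaussianInt := {D | D.norm.natAbs ≤ X ∧ Primary D ∧ Squarefree D}

/-- Those for which the groups are finite for all the `u` of the set `U`. -/
def RankZero (U : Set GaussianInt) (X : ℕ) : Set GaussianInt :=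
  {D | D ∈ Family X ∧ ∀ u ∈ U, AllFinite u D}

section proof

open Pool.Agent.Y697.MQ (OP gA gθ Pr_iff)
open Pool.Agent.Y697.PP (SS mem_SS Dt NS prod_inj)
open Pool.Agent.Y715.Z (em0 em0_ne)
open Pool.Agent.E8helper75.QI.C (cS mem_cS prod_cS det_cS prime_star primary_star)
open Pool.Agent.W307.RS (ShK)

variable {K : Type} [Field K] [NumberField K]

lemma op_iff (p : GaussianInt) : Prime p ∧ Primary p ↔ OP p :=
  Pool.Agent.E8helper75.QI.C.op_iff p

/-- finite groups over `K` -/
lemma fin_of {B : GaussianInt} (e : GaussianInt ≃+* 𝓞 K) (hB : em0 e B ≠ 0)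
    (h : ∀ W : WeierstrassCurve K, Pool.Agent.Y682.IsT W 0 (em0 e B) →
      Module.finrank ℤ (Pool.Agent.Y682.MP W) = 0) :
    Finite (curve (em0 e B)).toAffine.Point := by
  classical
  have hT : Pool.Agent.Y682.IsT (curve (em0 e B)) 0 (em0 e B) :=
    { h1 := rfl, h2 := rfl, h3 := rfl, h4 := rfl, h6 := rfl, hB := hB
      hD := by
        rw [zero_pow two_ne_zero, zero_sub, neg_ne_zero]
        exact mul_ne_zero (by norm_num) hB }
  have hfg : Module.Finite ℤ (Pool.Agent.Y682.MP (curve (em0 e B))) := Pool.Agent.Y682.fg_MP hT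
  have htors := Module.finrank_eq_zero_iff_isTorsion.1 (h _ hT)
  exact Module.finite_of_fg_torsion (Pool.Agent.Y682.MP (curve (em0 e B))) htors

lemma fin_two (e : GaussianInt ≃+* 𝓞 K) {S : Finset GaussianInt} (hS : ∀ l ∈ S, OP l)
    (hdet : (Pool.Agent.E8helper75.QI.C.mat S).det ≠ 0) :
    Finite (curve (em0 e (2 * ∏ p ∈ S, p))).toAffine.Point := by
  classical
  have hne : em0 e (2 * ∏ p ∈ S, p) ≠ 0 :=
    em0_ne e (mul_ne_zero (by decide) (Pool.Agent.R428.G.sqf_prod hS).ne_zero)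
  have hker := Pool.Agent.Y697.PP.ker_of_det gA gθ (S := S)
    (by rw [← Pool.Agent.E8helper75.QI.C.mat_eq hS]; exact hdet)
  exact fin_of e hne fun W hW => (Pool.Agent.E8helper51.QK.t_SHAK K e S hS hker W hW).1

lemma fin_i (e : GaussianInt ≃+* 𝓞 K) {S : Finset GaussianInt} (hS : ∀ l ∈ S, OP l)
    (hdet : (Pool.Agent.E8helper75.QI.C.mat S).det ≠ 0) :
    Finite (curve (em0 e (⟨0, 1⟩ * ∏ p ∈ S, p))).toAffine.Point := by
  classical
  have hne : em0 e (⟨0, 1⟩ * ∏ p ∈ S, p) ≠ 0 :=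
    em0_ne e (mul_ne_zero (by decide) (Pool.Agent.R428.G.sqf_prod hS).ne_zero)
  have hker := Pool.Agent.Y697.PP.ker_of_det gA gθ (S := S)
    (by rw [← Pool.Agent.E8helper75.QI.C.mat_eq hS]; exact hdet)
  exact fin_of e hne fun W hW => (Pool.Agent.E8helper36.QI.t_SHAI K e S hS hker W hW).1

lemma fin_mi (e : GaussianInt ≃+* 𝓞 K) {S : Finset GaussianInt} (hS : ∀ l ∈ S, OP l)
    (hdet : (Pool.Agent.E8helper75.QI.C.mat S).det ≠ 0) :
    Finite (curve (em0 e (⟨0, -1⟩ * ∏ p ∈ S, p))).toAffine.Point := by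
  have h1 : ∀ l ∈ cS S, OP l := by
    intro l hl
    have h2 := hS _ (mem_cS.1 hl)
    rw [← op_iff] at h2 ⊢
    refine ⟨?_, ?_⟩
    · have := prime_star h2.1
      rwa [star_star] at this
    · have := primary_star h2.2
      rwa [star_star] at this
  have h2 := fin_i ((starRingAut : GaussianInt ≃+* GaussianInt).trans e) h1
    (by rw [det_cS]; exact hdet)
  have e1 : em0 ((starRingAut : GaussianInt ≃+* GaussianInt).trans e)
      (⟨0, 1⟩ * ∏ p ∈ cS S, p) = em0 e (⟨0, -1⟩ * ∏ p ∈ S, p) := by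
    unfold em0
    have e2 : ((starRingAut : GaussianInt ≃+* GaussianInt).trans e)
        (⟨0, 1⟩ * ∏ p ∈ cS S, p) = e (⟨0, -1⟩ * ∏ p ∈ S, p) := by
      rw [RingEquiv.trans_apply, prod_cS]
      congr 1
      show star ((⟨0, 1⟩ : GaussianInt) * star (∏ p ∈ S, p)) = _
      rw [star_mul, star_star, mul_comm]
      rfl
    first
      | rw [e2]
      | (have e3 := congrArg (algebraMap (𝓞 K) K) e2; exact e3)
  rw [e1] at h2
  exact h2

open Classical in
lemma rank_fin {F : Type} [Field F] {A : F} (h : Finite (curve A).toAffine.Point) :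
    Module.rank ℤ (ShK A (0 : F)).toAffine.Point = 0 := by
  have h1 : Finite (ShK A (0 : F)).toAffine.Point := h
  rw [Module.rank_eq_zero_iff_isTorsion]
  intro P
  obtain ⟨n, hn, hn'⟩ := isOfFinAddOrder_iff_nsmul_eq_zero.1 (isOfFinAddOrder_of_finite P)
  exact ⟨⟨(n : ℤ), mem_nonZeroDivisors_of_ne_zero (by exact_mod_cast hn.ne')⟩, by
    show (n : ℤ) • P = 0
    rw [natCast_zsmul]; exact hn'⟩

open Classical in
lemma rank_scale {F : Type} [Field F] {A B v : F} (hv : v ≠ 0) (h : B = A * v ^ 4)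
    (h0 : Module.rank ℤ (ShK A (0 : F)).toAffine.Point = 0) :
    Module.rank ℤ (ShK B (0 : F)).toAffine.Point = 0 := by
  have ha : B = (RingHom.id F) A * v ^ 4 := h
  have hb : (0 : F) = (RingHom.id F) 0 * v ^ 6 := by rw [map_zero, zero_mul]
  refine le_antisymm ?_ zero_le
  rw [← h0]
  apply Pool.Agent.W612.RS.rank_surj (Pool.Agent.W612.RS.tH (RingHom.id F) hv ha hb)
  intro P
  match P with
  | 0 => exact ⟨0, map_zero _⟩
  | .some X Y h =>
    exact Pool.Agent.W612.RS.mem_range (RingHom.id F) hv ha hb X Y h (X / v ^ 2) (Y / v ^ 3)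
      (by rw [RingHom.id_apply]; field_simp) (by rw [RingHom.id_apply]; field_simp)

open Classical in
/-- the rank over `F` -/
lemma fin_quad {K F : Type} [Field K] [NumberField K] [Field F] [NumberField F] [Algebra K F]
    {d A : K} {s : F} (hs : s ^ 2 = algebraMap K F d) (htop : IntermediateField.adjoin K {s} = ⊤)
    (hA : A ≠ 0) (h1 : Module.rank ℤ (ShK A (0 : K)).toAffine.Point = 0)
    (h2 : Module.rank ℤ (ShK (d ^ 2 * A) (0 : K)).toAffine.Point = 0) :
    Finite (curve (algebraMap K F A)).toAffine.Point := by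
  have hns : 4 * A ^ 3 + 27 * (0 : K) ^ 2 ≠ 0 := by
    rw [zero_pow two_ne_zero, mul_zero, add_zero]
    exact mul_ne_zero (by norm_num) (pow_ne_zero 3 hA)
  have h3 := Pool.Agent.W612.RS.mq1 K F s d hs htop A 0 hns
  rw [mul_zero, h1, h2, add_zero, map_zero] at h3
  have h4 : Module.rank ℤ (ShK (algebraMap K F A) (0 : F)).toAffine.Point = 0 :=
    le_antisymm h3 zero_le
  have hAF : algebraMap K F A ≠ 0 := by
    rw [Ne, map_eq_zero]; exact hA
  have hnsF : 4 * (algebraMap K F A) ^ 3 + 27 * (0 : F) ^ 2 ≠ 0 := by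
    rw [zero_pow two_ne_zero, mul_zero, add_zero]
    exact mul_ne_zero (by norm_num) (pow_ne_zero 3 hAF)
  have hfg : AddGroup.FG (ShK (algebraMap K F A) (0 : F)).toAffine.Point :=
    Pool.Agent.TH942.sfg (F := F) hnsF
  have hfg2 : Module.Finite ℤ (ShK (algebraMap K F A) (0 : F)).toAffine.Point :=
    Module.Finite.iff_addGroup_fg.2 hfg
  have htors := Module.rank_eq_zero_iff_isTorsion.1 h4
  exact Module.finite_of_fg_torsion (ShK (algebraMap K F A) (0 : F)).toAffine.Point htors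

/-! ### the other coefficients -/

lemma fin_u3 (e : GaussianInt ≃+* 𝓞 K) {S : Finset GaussianInt} (hS : ∀ l ∈ S, OP l)
    {u : GaussianInt} (hu : Pool.Agent.E8helper75.F3.U3 u)
    (hdet : (Pool.Agent.E8helper75.F3.C.mat u S).det ≠ 0) :
    Finite (curve (em0 e (u * ∏ p ∈ S, p))).toAffine.Point := by
  classical
  have hu0 : u ≠ 0 := by rcases hu with rfl | rfl <;> decide
  have hne : em0 e (u * ∏ p ∈ S, p) ≠ 0 :=
    em0_ne e (mul_ne_zero hu0 (Pool.Agent.R428.G.sqf_prod hS).ne_zero)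
  have hker := Pool.Agent.Y697.PP.ker_of_det gA Pool.Agent.E8helper75.F3.gR (S := S)
    (by rw [← Pool.Agent.E8helper75.F3.C.mat_eq hu hS]; exact hdet)
  exact fin_of e hne fun W hW => (Pool.Agent.E8helper51.F3.t_SHAG K e u hu S hS hker W hW).1

lemma fin_star (e : GaussianInt ≃+* 𝓞 K) {S : Finset GaussianInt} (hS : ∀ l ∈ S, OP l)
    {u : GaussianInt} (hu : Pool.Agent.E8helper75.F3.U3 (star u))
    (hdet : (Pool.Agent.E8helper75.F3.C.mat u S).det ≠ 0) :
    Finite (curve (em0 e (u * ∏ p ∈ S, p))).toAffine.Point := by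
  have h1 : ∀ l ∈ Pool.Agent.E8helper75.F3.C.cS S, OP l := by
    intro l hl
    have h2 := hS _ (Pool.Agent.E8helper75.F3.C.mem_cS.1 hl)
    rw [← op_iff] at h2 ⊢
    refine ⟨?_, ?_⟩
    · have := prime_star h2.1
      rwa [star_star] at this
    · have := primary_star h2.2
      rwa [star_star] at this
  have h2 := fin_u3 ((starRingAut : GaussianInt ≃+* GaussianInt).trans e) h1 hu
    (by rw [Pool.Agent.E8helper75.F3.C.det_cS]; exact hdet)
  have e1 : em0 ((starRingAut : GaussianInt ≃+* GaussianInt).trans e)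
      (star u * ∏ p ∈ Pool.Agent.E8helper75.F3.C.cS S, p) = em0 e (u * ∏ p ∈ S, p) := by
    unfold em0
    have e2 : ((starRingAut : GaussianInt ≃+* GaussianInt).trans e)
        (star u * ∏ p ∈ Pool.Agent.E8helper75.F3.C.cS S, p) = e (u * ∏ p ∈ S, p) := by
      rw [RingEquiv.trans_apply, Pool.Agent.E8helper75.F3.C.prod_cS]
      congr 1
      show star (star u * star (∏ p ∈ S, p)) = _
      rw [star_mul, star_star, star_star, mul_comm]
    first
      | rw [e2]
      | (have e3 := congrArg (algebraMap (𝓞 K) K) e2; exact e3)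
  rw [e1] at h2
  exact h2

lemma fin_f3 (e : GaussianInt ≃+* 𝓞 K) {S : Finset GaussianInt} (hS : ∀ l ∈ S, OP l)
    {u : GaussianInt} (hu : Pool.Agent.E8helper75.F3.C.Coef u)
    (hdet : (Pool.Agent.E8helper75.F3.C.mat u S).det ≠ 0) :
    Finite (curve (em0 e (u * ∏ p ∈ S, p))).toAffine.Point := by
  rcases hu with rfl | rfl | rfl | rfl
  · exact fin_u3 e hS (Or.inl rfl) hdet
  · exact fin_u3 e hS (Or.inr rfl) hdet
  · exact fin_star e hS (Or.inl (by decide)) hdet
  · exact fin_star e hS (Or.inr (by decide)) hdet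

lemma nonsq_neg (a p : GaussianInt) : nonsq (-a) p = nonsq a p := by
  unfold nonsq
  congr 1
  apply propext
  have e2 : (⟨0, 1⟩ : GaussianInt) ^ 2 = -1 := by decide
  constructor
  · rintro ⟨b, hb⟩
    refine ⟨⟨0, 1⟩ * b, ?_⟩
    have e1 : ((⟨0, 1⟩ : GaussianInt) * b) ^ 2 - a = -(b ^ 2 - -a) := by
      rw [mul_pow, e2]
      ring
    rw [e1, dvd_neg]
    exact hb
  · rintro ⟨b, hb⟩
    refine ⟨⟨0, 1⟩ * b, ?_⟩
    have e1 : ((⟨0, 1⟩ : GaussianInt) * b) ^ 2 - -a = -(b ^ 2 - a) := by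
      rw [mul_pow, e2]
      ring
    rw [e1, dvd_neg]
    exact hb

lemma mat_neg (u : GaussianInt) (S : Finset GaussianInt) : mat (-u) S = mat u S := by
  unfold mat
  simp only [nonsq_neg]

lemma nonsq_eq {a p : GaussianInt} (h : ¬ p ∣ a) :
    nonsq a p = if Pool.Agent.Y697.MQ.leg p a = -1 then 1 else 0 := by
  unfold nonsq Pool.Agent.Y697.MQ.leg
  rw [if_neg h]
  by_cases h1 : ∃ b : GaussianInt, p ∣ b ^ 2 - a
  · rw [if_pos h1, if_pos h1, if_neg (by norm_num)]
  · rw [if_neg h1, if_neg h1, if_pos rfl]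

lemma nonsq_two {p : GaussianInt} (hp : OP p) : nonsq 2 p = nonsq ⟨0, 1⟩ p := by
  have hi : ¬ p ∣ (⟨0, 1⟩ : GaussianInt) := fun h => hp.pr.not_isUnit
      (isUnit_of_dvd_unit h (IsUnit.of_mul_eq_one (⟨0, -1⟩ : GaussianInt) (by decide)))
  have hpi : ¬ p ∣ (⟨1, -1⟩ : GaussianInt) := by
    intro h
    have h1 : p ∣ Pool.Agent.Y699.pi1 := by
      have h2 : Pool.Agent.Y699.pi1 = ⟨1, -1⟩ * ⟨0, 1⟩ := by decide
      rw [h2]
      exact h.mul_right _
    exact Pool.Agent.E8helper21.QT.pi1_ndvd (Pool.Agent.R428.G.toPP hp) h1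
  have h2 : (2 : GaussianInt) = ⟨0, 1⟩ * (⟨1, -1⟩ * ⟨1, -1⟩) := by decide
  have hnd : ¬ p ∣ (2 : GaussianInt) := by
    rw [h2]
    intro h
    rcases hp.pr.dvd_or_dvd h with h1 | h1
    · exact hi h1
    · rcases hp.pr.dvd_or_dvd h1 with h3 | h3 <;> exact hpi h3
  rw [nonsq_eq hnd, nonsq_eq hi]
  have e : Pool.Agent.Y697.MQ.leg p 2 = Pool.Agent.Y697.MQ.leg p ⟨0, 1⟩ := by
    rw [h2, Pool.Agent.Y697.MQ.leg_mul hp.pr, Pool.Agent.Y697.MQ.leg_mul hp.pr,
      Pool.Agent.Y697.MQ.leg_sq_eq hpi, mul_one]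
  rw [e]

lemma mat_two {S : Finset GaussianInt} (hS : ∀ l ∈ S, OP l) :
    mat 2 S = Pool.Agent.E8helper75.QI.C.mat S := by
  ext p q
  unfold mat Pool.Agent.E8helper75.QI.C.mat
  rw [Matrix.of_apply, Matrix.of_apply]
  by_cases h : q = p
  · rw [if_pos h, if_pos h, nonsq_two (hS p p.2)]
    rfl
  · rw [if_neg h, if_neg h]
    rfl

lemma mat_i (S : Finset GaussianInt) : mat ⟨0, 1⟩ S = Pool.Agent.E8helper75.QI.C.mat S := rfl

lemma mat_mi (S : Finset GaussianInt) : mat ⟨0, -1⟩ S = Pool.Agent.E8helper75.QI.C.mat S := by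
  have h : (⟨0, -1⟩ : GaussianInt) = -⟨0, 1⟩ := by decide
  rw [h, mat_neg, mat_i]

/-- rank zero over `K` -/
lemma fin_K (e : GaussianInt ≃+* 𝓞 K) {S : Finset GaussianInt} (hS : ∀ l ∈ S, OP l)
    {u : GaussianInt} (hu : Coef u) (hdet : (mat u S).det ≠ 0) :
    Finite (curve (em0 e (u * ∏ p ∈ S, p))).toAffine.Point := by
  rcases hu with rfl | rfl | rfl | ⟨w, hw, rfl⟩
  · rw [mat_two hS] at hdet
    exact fin_two e hS hdet
  · rw [mat_i] at hdet
    exact fin_i e hS hdet
  · rw [mat_mi] at hdet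
    exact fin_mi e hS hdet
  · exact fin_f3 e hS (Pool.Agent.E8helper75.F3.C.coef_Us
      (Pool.Agent.E8helper75.F3.C.mem_Us.2 hw)) hdet

lemma coef_neg {u : GaussianInt} (hu : Coef u) (h2 : u ≠ 2) : Coef (-u) := by
  rcases hu with rfl | rfl | rfl | ⟨w, hw, rfl⟩
  · exact absurd rfl h2
  · exact Or.inr (Or.inr (Or.inl (by decide)))
  · exact Or.inr (Or.inl (by decide))
  · exact Or.inr (Or.inr (Or.inr ⟨-w, hw.neg, by ring⟩))

lemma coef_ne {u : GaussianInt} (hu : Coef u) : u ≠ 0 := by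
  rcases hu with rfl | rfl | rfl | ⟨w, hw, rfl⟩
  · decide
  · decide
  · decide
  · exact mul_ne_zero (by decide) hw.ne_zero

/-- The criterion. -/
theorem allFinite {S : Finset GaussianInt} (hS : ∀ l ∈ S, OP l) {u : GaussianInt}
    (hu : Coef u) (hdet : (mat u S).det ≠ 0) : AllFinite u (∏ p ∈ S, p) := by
  classical
  intro K F _ _ _ _ _ e c s hcu hs htop
  set D : GaussianInt := ∏ p ∈ S, p with hD
  have hD0 : D ≠ 0 := (Pool.Agent.R428.G.sqf_prod hS).ne_zero
  have ru := rank_fin (fin_K e hS hu hdet)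
  have hv : em0 e ⟨1, 1⟩ ≠ 0 := em0_ne e (by decide)
  have em_mul : ∀ a b : GaussianInt, em0 e (a * b) = em0 e a * em0 e b := by
    intro a b
    unfold em0
    first
      | rw [map_mul, map_mul]
      | simp
  have em_pow : ∀ (a : GaussianInt) (n : ℕ), em0 e (a ^ n) = em0 e a ^ n := by
    intro a n
    unfold em0
    first
      | rw [map_pow, map_pow]
      | simp
  have key : ∀ {w : GaussianInt}, c ^ 2 * u = w →
      Module.rank ℤ (ShK (em0 e (w * D)) (0 : K)).toAffine.Point = 0 →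
      Finite (curve (algebraMap K F (e (u * D)))).toAffine.Point := by
    intro w hw h2
    refine fin_quad (d := em0 e c) (A := em0 e (u * D)) hs htop
      (em0_ne e (mul_ne_zero (coef_ne hu) hD0)) ru ?_
    rw [← em_pow, ← em_mul, ← mul_assoc, hw]
    exact h2
  -- the three small coefficients
  have small : (Pool.Agent.E8helper75.QI.C.mat S).det ≠ 0 →
      Module.rank ℤ (ShK (em0 e (2 * D)) (0 : K)).toAffine.Point = 0 ∧
      Module.rank ℤ (ShK (em0 e (⟨0, 4⟩ * D)) (0 : K)).toAffine.Point = 0 ∧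
      Module.rank ℤ (ShK (em0 e (⟨0, -4⟩ * D)) (0 : K)).toAffine.Point = 0 := by
    intro hd
    have r2 := rank_fin (fin_two e hS hd)
    have ri := rank_fin (fin_i e hS hd)
    have rm := rank_fin (fin_mi e hS hd)
    rw [← hD] at r2 ri rm
    refine ⟨r2, ?_, ?_⟩
    · refine rank_scale hv ?_ rm
      rw [← em_pow, ← em_mul]
      congr 1
      have : (⟨0, 4⟩ : GaussianInt) = ⟨0, -1⟩ * ⟨1, 1⟩ ^ 4 := by decide
      rw [this]
      ring
    · refine rank_scale hv ?_ ri
      rw [← em_pow, ← em_mul]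
      congr 1
      have : (⟨0, -4⟩ : GaussianInt) = ⟨0, 1⟩ * ⟨1, 1⟩ ^ 4 := by decide
      rw [this]
      ring
  rcases hcu.2 with rfl | ⟨rfl, h2⟩ | ⟨rfl, rfl | rfl⟩ | ⟨rfl, rfl | rfl⟩
  · exact key (w := u) (by rw [one_pow, one_mul]) ru
  · refine key (w := -u) ?_ (rank_fin (fin_K e hS (coef_neg hu h2) (by rw [mat_neg]; exact hdet)))
    have e2 : (⟨0, 1⟩ : GaussianInt) ^ 2 = -1 := by decide
    rw [e2, neg_one_mul]
  · rw [mat_two hS] at hdet
    exact key (w := ⟨0, 4⟩) (by decide) (small hdet).2.1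
  · rw [mat_mi] at hdet
    exact key (w := 2) (by decide) (small hdet).1
  · rw [mat_two hS] at hdet
    exact key (w := ⟨0, -4⟩) (by decide) (small hdet).2.2
  · rw [mat_i] at hdet
    exact key (w := 2) (by decide) (small hdet).1

theorem family_finite (X : ℕ) : (Family X).Finite :=
  (Pool.Agent.Y699.fin_norm_le X).subset fun _ h => h.1

theorem family_eq (X : ℕ) : Family X =
    (((SS X).image fun S => ∏ p ∈ S, p : Finset GaussianInt) : Set GaussianInt) := by
  classical
  ext D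
  rw [Finset.mem_coe, Finset.mem_image]
  constructor
  · rintro ⟨h1, h2, h3⟩
    obtain ⟨T, hT, e, he, hDe⟩ := Pool.Agent.Y697.MQ.exists_ker2 D ((Pr_iff D).2 h2)
    have he1 : e = 1 := by
      apply he.unit
      apply h3 e
      rw [hDe, pow_two]
      exact dvd_mul_left _ _
    rw [he1, one_pow, mul_one] at hDe
    refine ⟨T, mem_SS.2 ⟨fun p hp => (hT p hp).1, ?_⟩, hDe.symm⟩
    unfold NS
    rw [← hDe]
    exact h1
  · rintro ⟨S, hS, rfl⟩
    rw [mem_SS] at hS
    exact ⟨hS.2, (Pr_iff _).1 (Pool.Agent.Y697.MQ.Pr_prod fun x hx => (hS.1 x hx).pm),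
      Pool.Agent.R428.G.sqf_prod hS.1⟩

theorem family_card (X : ℕ) : (Family X).ncard = (SS X).card := by
  classical
  rw [family_eq, Set.ncard_coe_finset, Finset.card_image_of_injOn]
  intro S hS T hT h
  rw [Finset.mem_coe, mem_SS] at hS hT
  exact prod_inj hS.1 hT.1 h

open scoped Classical in
theorem card_le (P : Finset GaussianInt → Prop) (U : Set GaussianInt)
    (hP : ∀ S : Finset GaussianInt, (∀ l ∈ S, OP l) → P S → ∀ u ∈ U, AllFinite u (∏ p ∈ S, p))
    (X : ℕ) : ((SS X).filter P).card ≤ (RankZero U X).ncard := by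
  have h1 : ((((SS X).filter P).image fun S => ∏ p ∈ S, p :
      Finset GaussianInt) : Set GaussianInt) ⊆ RankZero U X := by
    intro D hD
    rw [Finset.mem_coe, Finset.mem_image] at hD
    obtain ⟨S, hS, rfl⟩ := hD
    rw [Finset.mem_filter] at hS
    refine ⟨?_, hP S (mem_SS.1 hS.1).1 hS.2⟩
    rw [family_eq, Finset.mem_coe, Finset.mem_image]
    exact ⟨S, hS.1, rfl⟩
  have h2 := Set.ncard_le_ncard h1 ((family_finite X).subset fun _ h => h.1)
  rw [Set.ncard_coe_finset, Finset.card_image_of_injOn] at h2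
  · exact h2
  intro S hS T hT h
  rw [Finset.mem_coe, Finset.mem_filter, mem_SS] at hS hT
  exact prod_inj hS.1.1 hT.1.1 h

open scoped Classical in
theorem evt (P : Finset GaussianInt → Prop) (U : Set GaussianInt)
    (hP : ∀ S : Finset GaussianInt, (∀ l ∈ S, OP l) → P S → ∀ u ∈ U, AllFinite u (∏ p ∈ S, p))
    (h : Filter.Tendsto (fun X : ℕ => (((SS X).filter P).card : ℝ) / ((SS X).card : ℝ)) Filter.atTop
      (nhds (∏' i : ℕ, (1 - (1 / 2 : ℝ) ^ (2 * i + 1)))))
    {κ : ℝ} (hκ : κ < ∏' i : ℕ, (1 - (1 / 2 : ℝ) ^ (2 * i + 1))) :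
    ∀ᶠ X : ℕ in Filter.atTop, κ * ((Family X).ncard : ℝ) ≤ ((RankZero U X).ncard : ℝ) := by
  filter_upwards [(tendsto_order.1 h).1 κ hκ] with X hX
  have h1 : (0 : ℝ) ≤ ((SS X).card : ℝ) := Nat.cast_nonneg _
  rw [family_card]
  have h2 : (((SS X).filter P).card : ℝ) ≤ ((RankZero U X).ncard : ℝ) := by
    exact_mod_cast card_le P U hP X
  refine le_trans ?_ h2
  rcases h1.eq_or_lt with h3 | h3
  · rw [← h3, mul_zero]
    exact Nat.cast_nonneg _
  · rw [lt_div_iff₀ h3] at hX
    exact hX.le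

lemma filt_card (s : Finset (Finset GaussianInt)) (P Q : Finset GaussianInt → Prop)
    (i1 : DecidablePred P) (i2 : DecidablePred Q) (h : ∀ S ∈ s, P S ↔ Q S) :
    (@Finset.filter _ P i1 s).card = (@Finset.filter _ Q i2 s).card := by
  congr 1
  ext S
  rw [@Finset.mem_filter _ P i1, @Finset.mem_filter _ Q i2]
  exact ⟨fun a => ⟨a.1, (h S a.1).1 a.2⟩, fun a => ⟨a.1, (h S a.1).2 a.2⟩⟩

end proof

/-- **Main theorem.** For every coefficient `u` and every finite set `S` of primary primes such that the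
matrix `mat u S` is not singular the groups `E_u(F)`, `E_u : y² = x³ + u D x`, `D = ∏ p`, are finite for all
the fields `F` of `AllFinite`; every odd squarefree Gaussian integer is a unit times such a `D`; and for
every `κ < ∏ (1 - 2 ^ (-(2 i + 1))) = 0.4194...` and all large `X` at least `κ #Family X` of the primary
squarefree `D` of norm at most `X` have this property for all of `u = 2`, `i`, `-i`, and at least as many
have it for both of `u` and `-u`, for every associate `u` of `(1 + i)³`. -/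
theorem result :
    (∀ (u : GaussianInt) (S : Finset GaussianInt), Coef u → (∀ p ∈ S, Prime p ∧ Primary p) →
      (mat u S).det ≠ 0 → AllFinite u (∏ p ∈ S, p)) ∧
    (∀ C : GaussianInt, ¬ (⟨1, 1⟩ : GaussianInt) ∣ C → Squarefree C →
      ∃ (w : GaussianInt) (S : Finset GaussianInt), IsUnit w ∧ (∀ p ∈ S, Prime p ∧ Primary p) ∧
        C = w * ∏ p ∈ S, p) ∧
    (∀ X : ℕ, (Family X).Finite ∧ 1 ∈ Family (X + 1)) ∧
    (∀ κ : ℝ, κ < ∏' i : ℕ, (1 - (1 / 2 : ℝ) ^ (2 * i + 1)) →
      (∀ᶠ X : ℕ in Filter.atTop,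
        κ * ((Family X).ncard : ℝ) ≤ ((RankZero {2, ⟨0, 1⟩, ⟨0, -1⟩} X).ncard : ℝ)) ∧
      ∀ w : GaussianInt, IsUnit w → ∀ᶠ X : ℕ in Filter.atTop,
        κ * ((Family X).ncard : ℝ) ≤ ((RankZero {⟨-2, 2⟩ * w, -(⟨-2, 2⟩ * w)} X).ncard : ℝ)) ∧
    (0.4194 : ℝ) < ∏' i : ℕ, (1 - (1 / 2 : ℝ) ^ (2 * i + 1)) ∧
    ∏' i : ℕ, (1 - (1 / 2 : ℝ) ^ (2 * i + 1)) < (0.4195 : ℝ) := by
  classical
  refine ⟨fun u S hu hS hdet => allFinite (fun p hp => (op_iff p).1 (hS p hp)) hu hdet,
    fun C h1 h2 => ?_, fun X => ⟨family_finite X, ?_⟩, fun κ hκ => ⟨?_, fun w hw => ?_⟩,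
    Pool.Agent.Y948.CQ.t_C2.2.2.2⟩
  · obtain ⟨w, S, hw, hS, hC⟩ := Pool.Agent.E8helper75.F3.C.exists_wS h1 h2
    exact ⟨w, S, hw, fun p hp => (op_iff p).2 (hS p hp), hC⟩
  · refine ⟨?_, ?_, squarefree_one⟩
    · have : (1 : GaussianInt).norm.natAbs = 1 := by decide
      rw [this]; omega
    · show (⟨2, 2⟩ : GaussianInt) ∣ 1 - 1
      rw [sub_self]
      exact dvd_zero _
  · have h := Pool.Agent.E8helper79.QI.t_EXK
    unfold Pool.Agent.E8helper75.QI.S_EXK at h
    refine evt (fun S => Pool.Agent.Y697.PP.Dt S) _ ?_ ?_ hκ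
    · intro S hS hP u hu
      have hd : (Pool.Agent.E8helper75.QI.C.mat S).det ≠ 0 := by
        rw [Pool.Agent.E8helper75.QI.C.mat_eq hS]
        exact hP
      rcases hu with rfl | rfl | rfl
      · exact allFinite hS (Or.inl rfl) (by rw [mat_two hS]; exact hd)
      · exact allFinite hS (Or.inr (Or.inl rfl)) (by rw [mat_i]; exact hd)
      · exact allFinite hS (Or.inr (Or.inr (Or.inl rfl))) (by rw [mat_mi]; exact hd)
    · refine h.congr fun X => ?_
      first
        | rfl
        | (congr 2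
           exact filt_card _ _ _ _ _ fun S _ => Iff.rfl)
  · have hc : Coef (⟨-2, 2⟩ * w) := Or.inr (Or.inr (Or.inr ⟨w, hw, rfl⟩))
    have hc' : Coef (-(⟨-2, 2⟩ * w)) := Or.inr (Or.inr (Or.inr ⟨-w, hw.neg, by ring⟩))
    refine evt (fun S => (mat (⟨-2, 2⟩ * w) S).det ≠ 0) _ ?_ ?_ hκ
    · intro S hS hP u hu
      rcases hu with rfl | rfl
      · exact allFinite hS hc hP
      · exact allFinite hS hc' (by rw [mat_neg]; exact hP)
    · refine Pool.Agent.E8helper75.F3D.exact.congr fun X => ?_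
      have h3 := Pool.Agent.E8helper75.F3.C.good_card Pool.Agent.E8helper82.F3.t_THR
        Pool.Agent.E8helper10.F3.t_SUP3 (Pool.Agent.E8helper75.F3.C.coef_Us
          (Pool.Agent.E8helper75.F3.C.mem_Us.2 hw)) X
      rw [← h3]
      first
        | rfl
        | (congr 2
           exact filt_card _ _ _ _ _ fun S _ => Iff.rfl)

end Pool.Agent.Results.MP_7cad78_nt.QuarticTwistFieldsH18
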